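import Pool.Agent.H65.VAS.Lvg
import Pool.Agent.H20.TIE.Vst
import Pool.Agent.H20.TIE.GdsT
import Pool.Agent.H19.VAS.SubT
import Pool.Agent.H41.GSD.Gev
import Pool.Agent.H12.MICA.Chart
import Pool.Agent.H19.STAT.MicTop
import Pool.Agent.H25.LIVE.Good

/-!
# STEP V with matching in a cell without ties: the output

`vtop`: the shape of the target, its fullness, and the leaves on both sides.
-/

set_option autoImplicit false

namespace Pool.VAS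

open Finset Real MvPolynomial
open Pool.Agent.H49.Ent Pool.Agent.H32.Dense Pool.STK Pool.STAT Pool.MIC.Frm Pool.MIC7 Pool.FRM
open Pool.MIC Pool.MicA Pool.GSD Pool.GSD.Cls Pool.GSD.Row
open Pool.BFL (Pl Pb)
open Pool.TIE (SubL)

theorem VSt.mono {D : NDat2} {n z i j X K' : ℕ} {q : D.Ω → ℝ} {c₁ θ bb θ' bb' : ℝ} {Ω' : Type}
    [Fintype Ω'] {q' : Ω' → ℝ} {f : Ω' → D.Ω} {G : Ω' → Pl (n - 1)}
    (h : VSt D n z i j X K' q c₁ θ bb q' f G) (hθ : θ ≤ θ') (hb : bb ≤ bb') :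
    VSt D n z i j X K' q c₁ θ' bb' q' f G :=
  ⟨h.sub, h.deg, fun w α => (h.cf w α).trans (Real.rpow_le_rpow_of_exponent_le (by norm_num) hb),
    h.few.trans hθ, le_trans (by linarith) h.full⟩

/-- **STEP V with matching in a cell without ties.** -/
theorem vtop : VTopStmt CondV := by
  intro n K B lam gam C₁ h hn hB hlam hgam hgn hC₁ hh hh1 hQ
  have hno : ∀ l, 1 ≤ l → l < n → gam l * lam n ≠ gam n * lam l := fun l h1 h2 h3 =>
    hQ ⟨l, h1, h2, h3⟩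
  have hlp : ∀ l, 1 ≤ l → l ≤ n → 0 < lam l := fun l _ _ => by linarith [hlam l]
  obtain ⟨K', σ, Cm, Λ, hσ, hσ1, hCm, hΛ, hg⟩ := gds_thm n K B lam gam C₁ h hn hB hC₁ hlam hgam
    hgn hno hh hh1
  obtain ⟨Kf, Cf, hKf, hCf, hfr⟩ := frm_ev n K lam gam C₁ hC₁
  obtain ⟨Cv, hCv, hvst⟩ := vst_of n K'
  have hB0 : (1 : ℝ) ≤ B := by exact_mod_cast hB
  obtain ⟨τ, hτ⟩ : ∃ τ : ℝ, τ = min σ (1 / (4 * B)) := ⟨_, rfl⟩
  have hτ0 : 0 < τ := by rw [hτ]; exact lt_min hσ (by positivity)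
  have hτσ : τ ≤ σ := by rw [hτ]; exact min_le_left _ _
  have hτB : 4 * B * τ ≤ 1 := by
    have h1 : τ ≤ 1 / (4 * B) := by rw [hτ]; exact min_le_right _ _
    rw [le_div_iff₀ (by positivity)] at h1
    linarith
  refine ⟨K', τ, 1, hτ0, hτB, zero_le_one, ?_⟩
  intro ε hε
  obtain ⟨ε', hε'⟩ : ∃ ε' : ℝ, ε' = min (ε / 2) 1 := ⟨_, rfl⟩
  have he1 : ε' ≤ ε / 2 := by rw [hε']; exact min_le_left _ _
  have he2 : ε' ≤ 1 := by rw [hε']; exact min_le_right _ _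
  have he0 : 0 < ε' := by rw [hε']; exact lt_min (by positivity) one_pos
  obtain ⟨c₁, u, u', N, v, Wd, x, a, Bg, hc₁, hd, hx, hv, hu', huu, hg2⟩ := hg ε' he0
  refine ⟨c₁, hc₁, ?_⟩
  intro Bb c
  obtain ⟨CA, hCA, hA⟩ := lfA_vg n K K' hCf hKf
  obtain ⟨CB, hCB, hBB⟩ := lfB_vg n K K' Bb c hCf hKf
  obtain ⟨c', hc'⟩ := exists_nat_ge (2 * CA + 2 * CB + 1)
  refine ⟨c', ?_⟩
  intro e Rf m₀ he
  -- the numbers
  obtain ⟨m, hm⟩ : ∃ m : ℕ, 2 * Cv / ε + CA + CB + 8 * C₁ + 8 + 1 / τ ≤ m := exists_nat_ge _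
  have p1 : 0 ≤ 2 * Cv / ε := by positivity
  have p2 : 0 ≤ 1 / τ := by positivity
  obtain ⟨b₀, hb₀⟩ := exists_nat_ge (CA + CB)
  obtain ⟨N₀, M, κ₀, ϖ, z₁, hκ₀, hϖ, hg3⟩ := hg2 (max m₀ m) b₀ (fun N => Rf N + 1) 1 one_pos
  by_cases hM : 2 ≤ M
  swap
  · -- no cells
    refine ⟨N₀, M, κ₀, ϖ, max z₁ 1, hκ₀, hϖ, ?_⟩
    intro J a₀ w₀ z D q hz hO hN hT
    obtain ⟨_, l, i, j, bb, g, h', _, _, _, h4, h5, _⟩ := hg3 J a₀ w₀ z κ₀ κ₀ D q
      ((le_max_left _ _).trans hz) le_rfl le_rfl hO hN hT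
    exfalso
    have h6 : 1 ≤ (Rf N₀ + 1 + Wd) * 2 ^ l := Nat.mul_pos (by omega) (by positivity)
    omega
  obtain ⟨κf, zf, hκf, hfr2⟩ := hfr M (e * c₁) hM (by positivity)
  refine ⟨N₀, M, min κ₀ κf, ϖ, max (max z₁ zf) 1, lt_min hκ₀ hκf, hϖ, ?_⟩
  intro J a₀ w₀ z D q hz hO hN hT
  have hz1 : 1 ≤ z := (le_max_right _ _).trans hz
  have hz0 : (1 : ℝ) ≤ z := by exact_mod_cast hz1
  obtain ⟨_, l, i, j, bb, g, h', hl, hml, hlN, hi1, hi2, hj1, hj2, hbb, hbe, hmh, hhg, hgl, Ω',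
    fin, q', f, G, hsub, hGA, hV⟩ := hg3 J a₀ w₀ z (min κ₀ κf) (min κ₀ κf) D q
    ((le_max_left _ _).trans ((le_max_left _ _).trans hz)) (min_le_left _ _) (min_le_left _ _)
    hO hN hT
  have hFra := hfr2 J a₀ w₀ z (min κ₀ κf) D q
    ((le_max_right _ _).trans ((le_max_left _ _).trans hz)) (min_le_right _ _) hO
  obtain ⟨T, hT2⟩ : ∃ T : ℕ, T = 2 ^ l := ⟨_, rfl⟩
  have hT1 : 1 ≤ T := by rw [hT2]; exact Nat.one_le_two_pow
  rw [← hT2] at hlN hi1 hi2 hj1 hj2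
  have hRT : Rf N₀ + 1 ≤ (Rf N₀ + 1) * T := Nat.le_mul_of_pos_right _ hT1
  have hsplit : (Rf N₀ + 1 + Wd) * T = (Rf N₀ + 1) * T + Wd * T := by ring
  rw [hsplit] at hi1 hi2 hj1 hj2
  have hiM : i < M := by omega
  have hjM : j < M := by omega
  have hu'l : u' ≤ l := by omega
  have hcX := two_le_cX (z := z) (l := l) hu' hu'l
  have hh'c : h' ≤ cX z l := by omega
  -- `m`
  have hmh' : (m : ℝ) * z ≤ h' := by
    have h1 : m * z ≤ h' := (Nat.mul_le_mul_right z (le_max_right m₀ m)).trans hmh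
    exact_mod_cast h1
  have hm0h : m₀ * z ≤ h' := (Nat.mul_le_mul_right z (le_max_left m₀ m)).trans hmh
  have hmm : (m : ℝ) ≤ 2 ^ (l - u) := by
    have h1 : m ≤ 2 ^ (l - u) := (le_max_right m₀ m).trans hml
    exact_mod_cast h1
  have hh'0 : (0 : ℝ) ≤ h' := Nat.cast_nonneg _
  -- the slopes
  have hΛ0 : 0 ≤ Λ := by
    have h1 := hΛ n hn le_rfl
    have h2 := hlam n
    linarith
  obtain ⟨s, hs⟩ : ∃ s : ℕ, s = ⌈2 * Λ * (2 ^ (l - u) * z) + 2 * C₁ * z⌉₊ := ⟨_, rfl⟩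
  have hNu : Nu C₁ Λ z l u (cX z l) s := by
    refine ⟨hz1, hl, by linarith, hC₁, hΛ0, rfl, ?_, ?_⟩
    · rw [hs]
      exact Nat.le_ceil _
    · rw [hs]
      exact (Nat.ceil_lt_add_one (by positivity)).le
  have r1 : Wd * 2 ^ l ≤ i := by rw [← hT2]; omega
  have r2 : i + Wd * 2 ^ l ≤ M - 1 := by rw [← hT2]; omega
  have r3 : Wd * 2 ^ l ≤ j := by rw [← hT2]; omega
  have r4 : j + Wd * 2 ^ l ≤ M - 1 := by rw [← hT2]; omega
  have sR := sideR (M' := M - 1) hO (by omega) hn hd hΛ hNu hx hv r1 r2 r3 r4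
  have sL := sideL (M' := M - 1) hO (by omega) hn hd hΛ hNu hx hv r1 r2 r3 r4
  -- sizes
  have hCz : ∀ C' : ℝ, C' ≤ CA + CB → C' * z ≤ bb := fun C' h1 => by
    have h2 : (b₀ : ℝ) * z ≤ bb := by exact_mod_cast hbb
    have h3 : C' * z ≤ b₀ * z := mul_le_mul_of_nonneg_right (by linarith) (by linarith)
    linarith
  have hCX : ∀ C' : ℝ, C' ≤ CA + CB → C' * z ≤ cX z l := fun C' h1 => by
    have h3 : C' * z ≤ m * z := mul_le_mul_of_nonneg_right (by linarith) (by linarith)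
    have h4 : (h' : ℝ) ≤ cX z l := by exact_mod_cast hh'c
    linarith
  have hσh : 1 ≤ ⌊τ * h'⌋₊ := by
    rw [Nat.one_le_floor_iff]
    have h1 : 1 / τ ≤ m := by linarith
    rw [div_le_iff₀ hτ0] at h1
    have h2 : (m : ℝ) ≤ h' := by
      have : (m : ℝ) * 1 ≤ m * z := mul_le_mul_of_nonneg_left hz0 (Nat.cast_nonneg _)
      linarith
    have h3 : (m : ℝ) * τ ≤ h' * τ := mul_le_mul_of_nonneg_right h2 hτ0.le
    linarith
  have hsd : ⌊τ * h'⌋₊ ≤ ⌊σ * h'⌋₊ := Nat.floor_le_floor (mul_le_mul_of_nonneg_right hτσ hh'0)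
  -- the frames
  have hbad : Pb q' (fun w => ¬ Fra D n Kf M z Cf (f w)) ≤ e := by
    have h1 := sub_bad hO.isLaw hc₁ hsub (fun ω => ¬ Fra D n Kf M z Cf ω)
    refine h1.trans ?_
    rw [div_le_iff₀ hc₁]
    exact hFra
  have hdown : ∀ E : Ω' → Prop, (∀ w, 0 < q' w → Fra D n Kf M z Cf (f w) → E w) →
      Pb q' (fun w => ¬ E w) ≤ e := by
    intro E hE
    refine le_trans (Pool.LIV.Pb_mono25 hsub.isLaw.nonneg fun w hw h1 h2 => h1 (hE w hw h2)) hbad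
  refine ⟨i, j, h', Ω', fin, q', f, G, hm0h, ?_, ⟨by omega, by omega, by omega, by omega⟩, ?_,
    ?_, ?_⟩
  · have h1 : 2 ^ (l - u') ≤ N₀ := (Nat.pow_le_pow_right (by norm_num) (Nat.sub_le _ _)).trans
      (hT2 ▸ hlN)
    exact (hhg.trans hgl).trans (Nat.mul_le_mul_right z h1)
  · have h1 := hvst D z v x a l i j bb (2 ^ (l - u') * z) q (qG D n z a₀ Bg M q) c₁ ε' h' q' f G
      hsub (fun w hw k k1 k2 => Pool.MicA.zs_le hO hiM.le hjM.le (hGA w hw).1 k1 k2.le) he2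
      (hhg.trans hgl) hcX hV.cl
    refine h1.mono ?_ ?_
    · have h2 : 2 * Cv / ε ≤ m := by linarith
      rw [div_le_iff₀ hε] at h2
      have h3 : (m : ℝ) ≤ h' := by
        have : (m : ℝ) * 1 ≤ m * z := mul_le_mul_of_nonneg_left hz0 (Nat.cast_nonneg _)
        linarith
      have h4 : (m : ℝ) * ε ≤ h' * ε := mul_le_mul_of_nonneg_right h3 hε.le
      have h5 : ε' * h' ≤ ε / 2 * h' := mul_le_mul_of_nonneg_right he1 hh'0
      linarith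
    · exact mul_le_mul_of_nonneg_right (by linarith) hh'0
  · intro i' j' hi' hj' hP
    obtain ⟨q1, q2, q3⟩ := plA_lv hd hlp hn hP
    refine hdown _ fun w hw hF => ?_
    obtain ⟨P, hP⟩ := fra_iff.1 hF
    refine (hA D J a₀ w₀ z M N v x a lam gam (min κ₀ κf) C₁ q l u i j bb _ _ σ Cm ε' g h' _ Ω' q' f
      G w P hn hz1 hO he0.le (hCz CA (by linarith)) (hCX CA (by linarith)) hiM hjM hh'c hσ.le hσ1
      hsd hV sR hw (hGA w hw).1 hP i' j' hi' hj' q1 q2 q3).mono ?_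
    exact acc hz1 hCA (by linarith) he0.le (by linarith)
  · intro i₁ j₁ hi₁ hj₁ hP
    obtain ⟨q1, q2⟩ := plB_lv hd hlp hn hP
    refine hdown _ fun w hw hF => ?_
    obtain ⟨P, hP⟩ := fra_iff.1 hF
    refine (hBB D J a₀ w₀ z M N v x a lam gam (min κ₀ κf) C₁ q l u i j bb _ _ σ Cm ε' g h' _ Ω' q' f
      G w P hn hz1 hO he0.le (hCz CB (by linarith)) (hCX CB (by linarith)) hiM hjM hh'c hσ.le hσ1
      hsd hσh hV sL hw (hGA w hw).1 hP i₁ j₁ hi₁ hj₁ q2 q1).mono ?_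
    exact acc hz1 hCB (by linarith) he0.le (by linarith)

end Pool.VAS
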