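import Pool.Agent.H65.GRD.LfA
import Pool.Agent.H41.GSD.Lf5
import Pool.Agent.H41.GSD.Plc
import Pool.Agent.H41.GSD.HtB
import Pool.Agent.H20.TIE.Gds

/-!
# The leaves of the shape of STEP V

`lfA_vg`, `lfB_vg`: a sample of the sub-law of STEP V with a frame satisfies `LfA` and `LfB` at all
the places with the right levels.
-/

set_option autoImplicit false

namespace Pool.VAS

open Finset Real MvPolynomial
open Pool.Agent.H49.Ent Pool.Agent.H32.Dense Pool.STK Pool.STAT Pool.MIC.Frm Pool.MIC7 Pool.FRM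
open Pool.MIC Pool.MicA Pool.GSD Pool.GSD.Cls Pool.GSD.Row
open Pool.BFL (Pl Pb)
open Pool.TIE (elim MB mxs Dat Claim Mat)

theorem LfA.mono {D : NDat2} {n z i j i' j' : ℕ} {F : Pl (n - 1)} {ε ε' : ℝ} {ω : D.Ω}
    (h : LfA D n z i j i' j' F ε ω) (hε : ε ≤ ε') : LfA D n z i j i' j' F ε' ω :=
  fun b b' hb hb' => (h b b' hb hb').trans (div_le_div_of_nonneg_right hε (by positivity))

theorem LfB.mono {D : NDat2} {n z i j i₁ j₁ X : ℕ} {F : Pl (n - 1)} {ρ ε ε' : ℝ} {ω : D.Ω}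
    (h : LfB D n z i j i₁ j₁ X F ρ ε ω) (hε : ε ≤ ε') : LfB D n z i j i₁ j₁ X F ρ ε' ω :=
  fun b b' hb hb' h1 => (h b b' hb hb' h1).trans (div_le_div_of_nonneg_right hε (by positivity))

/-- The accuracy. -/
theorem acc {C' ε : ℝ} {c' z s X : ℕ} (hz : 1 ≤ z) (hC0 : 0 ≤ C') (hC : 2 * C' + 1 ≤ c')
    {ε' : ℝ} (hε0 : 0 ≤ ε') (hε : ε' ≤ ε) :
    exp (C' * z) * ((2 : ℝ) ^ (ε' * X) / 2 ^ s + 1 / 2 ^ s) ≤
      2 ^ (c' * z) * (2 : ℝ) ^ (1 * ε * X) / 2 ^ s := by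
  have hz0 : (1 : ℝ) ≤ z := by exact_mod_cast hz
  have hX0 : (0 : ℝ) ≤ X := Nat.cast_nonneg X
  have h1 : exp (C' * z) ≤ (2 : ℝ) ^ (2 * C' * z) := by
    rw [Real.rpow_def_of_pos two_pos]
    refine exp_le_exp.2 ?_
    have hl : 1 / 2 ≤ Real.log 2 := by linarith [Real.log_two_gt_d9]
    have := mul_le_mul_of_nonneg_right hl (show 0 ≤ 2 * C' * z by positivity)
    linarith
  have h2 : (1 : ℝ) ≤ (2 : ℝ) ^ (ε' * X) := Real.one_le_rpow (by norm_num) (by positivity)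
  have h3 : (2 : ℝ) ^ (ε' * X) / 2 ^ s + 1 / 2 ^ s ≤ 2 * (2 : ℝ) ^ (ε' * X) / 2 ^ s := by
    rw [← add_div]
    exact div_le_div_of_nonneg_right (by linarith) (by positivity)
  calc exp (C' * z) * ((2 : ℝ) ^ (ε' * X) / 2 ^ s + 1 / 2 ^ s)
      ≤ (2 : ℝ) ^ (2 * C' * z) * (2 * (2 : ℝ) ^ (ε' * X) / 2 ^ s) :=
        mul_le_mul h1 h3 (by positivity) (by positivity)
    _ = (2 : ℝ) ^ (2 * C' * z + 1) * (2 : ℝ) ^ (ε' * X) / 2 ^ s := by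
        rw [Real.rpow_add two_pos, Real.rpow_one]
        ring
    _ ≤ (2 : ℝ) ^ ((c' * z : ℕ) : ℝ) * (2 : ℝ) ^ (1 * ε * X) / 2 ^ s := by
        refine div_le_div_of_nonneg_right (mul_le_mul ?_ ?_ (by positivity) (by positivity))
          (by positivity)
        · refine Real.rpow_le_rpow_of_exponent_le (by norm_num) ?_
          push_cast
          have e1 : (2 * C' + 1) * z ≤ c' * z := mul_le_mul_of_nonneg_right hC (by linarith)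
          linarith
        · refine Real.rpow_le_rpow_of_exponent_le (by norm_num) ?_
          rw [one_mul]
          exact mul_le_mul_of_nonneg_right hε hX0
    _ = 2 ^ (c' * z) * (2 : ℝ) ^ (1 * ε * X) / 2 ^ s := by rw [Real.rpow_natCast]

section vg

theorem cX_ge (z l : ℕ) : z + 2 ≤ cX z l := by
  unfold cX
  have : 1 * z ≤ (2 ^ (l - 1) + 1) * z := Nat.mul_le_mul_right z (Nat.le_add_left _ _)
  omega

/-- **`LfA` for the shape of STEP V.** -/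
theorem lfA_vg (n K K' : ℕ) {Kf : ℕ} {Cf : ℝ} (hCf : 0 ≤ Cf) (hKf : K ≤ Kf) : ∃ C' : ℝ, 0 ≤ C' ∧
    ∀ (D : NDat2) (J a₀ w₀ z M N v : ℕ) (x : ℕ → ℤ) (a : ℕ → ℕ) (lam gam : ℕ → ℝ) (κ C₁ : ℝ)
      (q : D.Ω → ℝ) (l u i j bb h₀ : ℕ) (qg : D.Ω → ℝ) (σ Cm ε : ℝ) (h h' sd : ℕ)
      (Ω' : Type) [Fintype Ω'] (q' : Ω' → ℝ) (f : Ω' → D.Ω) (G : Ω' → Pl (n - 1)) (w : Ω')
      (P : ℕ → PN), 1 ≤ n → 1 ≤ z →
      D.Ok2 n K J a₀ w₀ z M lam gam κ C₁ q → 0 ≤ ε → C' * z ≤ bb → C' * z ≤ cX z l →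
      i < M → j < M → h' ≤ cX z l → 0 ≤ σ → σ ≤ 1 → sd ≤ ⌊σ * h'⌋₊ →
      Vg D n z N v x a l u i j bb h₀ (dK n K) K' qg σ Cm ε h h' q' f G →
      Sde D n (cX z l) M (i, j) (nt (nR v x l u i j (a n))) (mR n a) (own n v x a l i j) →
      0 < q' w → 0 < q (f w) → FrP D n Kf M z Cf P (f w) →
      ∀ i' j', i' < M → j' < M → D.g i j n + sd ≤ D.g i' j' n →
      (∀ c : Fin (n - 1), c ∈ mR n a → D.g i' j' (c + 1) ≤ D.g i j (c + 1)) →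
      (∀ c : Fin (n - 1), c ∉ mR n a → D.g i j (c + 1) + sd ≤ D.g i' j' (c + 1)) →
      LfA D n z i j i' j' (G w)
        (exp (C' * z) * ((2 : ℝ) ^ (ε * h') / 2 ^ sd + 1 / 2 ^ sd)) (f w) := by
  obtain ⟨C', hC', hA⟩ := lfA n Kf (dK n Kf) K' Cf hCf
  refine ⟨C', hC', ?_⟩
  intro D J a₀ w₀ z M N v x a lam gam κ C₁ q l u i j bb h₀ qg σ Cm ε h h' sd Ω' _ q' f G w P hn hz hO
    hε hbb hX hi hj hh hσ hσ1 hsd1 hV hS hw hqw hF i' j' hi' hj' p1 p2 p3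
  have hs1 : sd ≤ cX z l := by
    refine (hsd1.trans (Nat.floor_le_of_le ?_)).trans hh
    exact mul_le_of_le_one_left (Nat.cast_nonneg _) hσ1
  have hsd := sd_vis hO hi.le hj.le hqw
  refine hA D K z (cX z l) sd M i j (nt (nR v x l u i j (a n))).1
    (nt (nR v x l u i j (a n))).2 i' j' bb sd (own n v x a l i j) (mR n a) (f w) P
    (fun c => ((cD D n z v x a l i j bb h₀ qg).ht c (f w) : ℝ) / 2 ^ cX z l)
    (csh D n z v x a l i j bb (f w)) (G w) (G w) ((2 : ℝ) ^ (ε * h')) hKf hz (cX_ge z l) hs1 hbb hX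
    hn hi hj hS.t1 hS.t2 hi' hj' hO.G_tri hO.G_deg hF hsd hS.lo p1 hS.ms p2 p3 hS.pr
    (shn_rnd hsd hKf hO.G_tri hO.G_deg) (fun c _ => ht_nn D n z i j (cX z l) h₀ (D.Ψ i j)
      (fun ω => (rc D ((i : ℤ), (j : ℤ)) ω, D.T ω)) qg (csh D n z v x a l i j bb) (f w) c)
    (hV.cl.deg w) (hV.cl.deg w) (Real.one_le_rpow (by norm_num) (by positivity))
    (hV.cl.cf w) (fun α _ => by rw [sub_self, abs_zero]; positivity) ?_
  exact fun α hα => ((hV.mat w hw).1.mono hsd1) α hα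

/-- **`LfB` for the shape of STEP V.** -/
theorem lfB_vg (n K K' Bb c : ℕ) {Kf : ℕ} {Cf : ℝ} (hCf : 0 ≤ Cf) (hKf : K ≤ Kf) : ∃ C' : ℝ,
    0 ≤ C' ∧ ∀ (D : NDat2) (J a₀ w₀ z M N v : ℕ) (x : ℕ → ℤ) (a : ℕ → ℕ) (lam gam : ℕ → ℝ)
      (κ C₁ : ℝ) (q : D.Ω → ℝ) (l u i j bb h₀ : ℕ) (qg : D.Ω → ℝ) (σ Cm ε : ℝ) (h h' sd : ℕ)
      (Ω' : Type) [Fintype Ω'] (q' : Ω' → ℝ) (f : Ω' → D.Ω) (G : Ω' → Pl (n - 1)) (w : Ω')
      (P : ℕ → PN), 1 ≤ n → 1 ≤ z →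
      D.Ok2 n K J a₀ w₀ z M lam gam κ C₁ q → 0 ≤ ε → C' * z ≤ bb → C' * z ≤ cX z l →
      i < M → j < M → h' ≤ cX z l → 0 ≤ σ → σ ≤ 1 → sd ≤ ⌊σ * h'⌋₊ → 1 ≤ sd →
      Vg D n z N v x a l u i j bb h₀ (dK n K) K' qg σ Cm ε h h' q' f G →
      Sde D n (cX z l) M (i, j) (nt (nL v x l u i j (a n + 1))) (mL n a) (own n v x a l i j) →
      0 < q' w → 0 < q (f w) → FrP D n Kf M z Cf P (f w) →
      ∀ i₁ j₁, i₁ < M → j₁ < M →
      (∀ k : Fin (n - 1), (k ∉ mL n a → D.g i j (k + 1) + sd ≤ D.g i₁ j₁ (k + 1)) ∧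
        (k ∈ mL n a → D.g i₁ j₁ (k + 1) + sd ≤ D.g i j (k + 1))) →
      D.g i j n ≤ D.g i₁ j₁ n + c * z →
      LfB D n z i j i₁ j₁ sd (G w) (2 ^ (Bb * z))
        (exp (C' * z) * ((2 : ℝ) ^ (ε * h') / 2 ^ sd + 1 / 2 ^ sd)) (f w) := by
  obtain ⟨C', hC', hB⟩ := lfB n Kf (dK n Kf) K' Bb c Cf hCf
  refine ⟨C', hC', ?_⟩
  intro D J a₀ w₀ z M N v x a lam gam κ C₁ q l u i j bb h₀ qg σ Cm ε h h' sd Ω' _ q' f G w P hn hz hO
    hε hbb hX hi hj hh hσ hσ1 hsd1 hσ2 hV hS hw hqw hF i₁ j₁ hi₁ hj₁ p1 p2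
  have hs1 : sd ≤ cX z l := by
    refine (hsd1.trans (Nat.floor_le_of_le ?_)).trans hh
    exact mul_le_of_le_one_left (Nat.cast_nonneg _) hσ1
  have hsd := sd_vis hO hi.le hj.le hqw
  refine hB D K z (cX z l) sd M i j (nt (nL v x l u i j (a n + 1))).1
    (nt (nL v x l u i j (a n + 1))).2 i₁ j₁ bb sd (own n v x a l i j) (mL n a) (f w) P
    (fun c => ((cD D n z v x a l i j bb h₀ qg).ht c (f w) : ℝ) / 2 ^ cX z l)
    (csh D n z v x a l i j bb (f w)) (G w) (G w) ((2 : ℝ) ^ (ε * h')) hKf hz (cX_ge z l) hbb hX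
    hn hi hj hS.t1 hS.t2 hi₁ hj₁ hσ2 hs1 hO.G_tri hO.G_deg hF hsd (sd_line hO hi.le hj.le hqw)
    hS.lo hS.ms hS.pr
    (shn_rnd hsd hKf hO.G_tri hO.G_deg) (fun c _ => ht_nn D n z i j (cX z l) h₀ (D.Ψ i j)
      (fun ω => (rc D ((i : ℤ), (j : ℤ)) ω, D.T ω)) qg (csh D n z v x a l i j bb) (f w) c)
    (hV.cl.deg w) (hV.cl.deg w) (Real.one_le_rpow (by norm_num) (by positivity))
    (hV.cl.cf w) (fun α _ => by rw [sub_self, abs_zero]; positivity) ?_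
    (sd_line hO hi₁.le hj₁.le hqw) p1 p2
  exact fun α hα => ((hV.mat w hw).2.1.mono hsd1) α hα

end vg

end Pool.VAS
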